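import Mathlib

/-!
Continuous linear surjections `C_p(X) → C_p(Y)`: if `Y` is realcompact (for instance if all finite
powers of `X` are hereditarily Lindelöf), then `Y` is a countable union of continuous images of
closed subspaces of the spaces `ℝ^n × X^n`.

Several arguments (the form of the continuous functionals, the ultrafilter argument) are adapted
from the starting file `Pool/Agent/Results/MP_1f8704_gt/LinearCondensation.lean`.
-/

namespace Pool.Agent.Y302.LC

open Set Filter Topology TopologicalSpace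

universe u v

/-- `C_p(X)`: the real continuous functions on `X` with the topology of pointwise convergence
(the subspace topology of the product `X → ℝ`). -/
def Cp (X : Type u) [TopologicalSpace X] : Submodule ℝ (X → ℝ) where
  carrier := {f | Continuous f}
  add_mem' := fun hf hg => Continuous.add hf hg
  zero_mem' := continuous_zero
  smul_mem' := fun c _ hf => Continuous.const_smul hf c

/-- A condensation is a continuous bijection. -/
def IsCondensation {A : Type u} {B : Type v} [TopologicalSpace A] [TopologicalSpace B]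
    (φ : A → B) : Prop :=
  Continuous φ ∧ Function.Bijective φ

/-- A space is analytic if it is a continuous image of the space of irrationals `ω^ω`. -/
def IsAnalytic (X : Type u) [TopologicalSpace X] : Prop :=
  ∃ p : (ℕ → ℕ) → X, Continuous p ∧ Function.Surjective p

/-- Realcompactness of a Tychonoff space `Y`: every ultrafilter on `Y` along which every real
continuous function has a (finite) limit converges in `Y`.  (Equivalently: the image of `Y` under
the canonical map into the power of `ℝ` indexed by the real continuous functions is closed.) -/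
def IsRealcompact (Y : Type v) [TopologicalSpace Y] : Prop :=
  ∀ U : Ultrafilter Y, (∀ g : Y → ℝ, Continuous g → ∃ c : ℝ, Tendsto g U (𝓝 c)) →
    ∃ y, (U : Filter Y) ≤ 𝓝 y

section Basic

variable {X : Type u} [TopologicalSpace X]

lemma Cp.continuous (f : Cp X) : Continuous (f : X → ℝ) := f.2

/-- The evaluation functionals. -/
def ev (x : X) : Cp X →ₗ[ℝ] ℝ where
  toFun f := (f : X → ℝ) x
  map_add' _ _ := rfl
  map_smul' _ _ := rfl

@[simp] lemma ev_apply (x : X) (f : Cp X) : ev x f = (f : X → ℝ) x := rfl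

lemma continuous_ev (x : X) : Continuous (fun f : Cp X => (f : X → ℝ) x) :=
  (continuous_apply x).comp continuous_subtype_val

lemma topology_eq : (inferInstance : TopologicalSpace (Cp X)) =
    ⨅ x : X, induced (ev x) inferInstance := by
  change induced Subtype.val (⨅ x : X, induced (fun f : X → ℝ => f x) inferInstance) = _
  rw [induced_iInf]
  congr 1
  ext1 x
  rw [induced_compose]
  rfl

/-- A continuous linear functional on `C_p(X)` is a finite linear combination of evaluations. -/
lemma functional_eq (φ : Cp X →ₗ[ℝ] ℝ) (hφ : Continuous φ) :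
    ∃ (n : ℕ) (c : Fin n → ℝ) (x : Fin n → X), ∀ f : Cp X, φ f = ∑ i, c i * (f : X → ℝ) (x i) := by
  have h1 : φ ∈ Submodule.span ℝ (range (ev : X → Cp X →ₗ[ℝ] ℝ)) := by
    rw [LinearMap.mem_span_iff_continuous, ← topology_eq]
    exact hφ
  rw [Finsupp.mem_span_range_iff_exists_finsupp] at h1
  obtain ⟨c, hc⟩ := h1
  refine ⟨c.support.card, fun i => c (c.support.equivFin.symm i),
    fun i => c.support.equivFin.symm i, fun f => ?_⟩
  rw [← hc, Finsupp.sum, LinearMap.sum_apply, ← Finset.sum_coe_sort]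
  rw [← Equiv.sum_comp c.support.equivFin.symm]
  rfl

end Basic

section Separable

variable {X : Type u} [TopologicalSpace X]

/-- If all finite powers of `X` are hereditarily Lindelöf, then `C_p(X)` is hereditarily
separable. -/
lemma exists_countable_dense (hX : ∀ n : ℕ, HereditarilyLindelofSpace (Fin n → X))
    (A : Set (Cp X)) : ∃ D ⊆ A, D.Countable ∧ A ⊆ closure D := by
  classical
  -- for each box with rational faces, the open sets of points of `X^n` which are mapped into it
  let U : ∀ n : ℕ, (Fin n → ℚ × ℚ) → A → Set (Fin n → X) := fun n q f =>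
    {x | ∀ i, ((q i).1 : ℝ) < (f.1 : X → ℝ) (x i) ∧ (f.1 : X → ℝ) (x i) < ((q i).2 : ℝ)}
  have hU : ∀ n q f, IsOpen (U n q f) := by
    intro n q f
    have h1 : U n q f = ⋂ i, (fun x : Fin n → X => (f.1 : X → ℝ) (x i)) ⁻¹'
        Ioo ((q i).1 : ℝ) ((q i).2 : ℝ) := by
      ext x
      simp [U, mem_iInter]
    rw [h1]
    exact isOpen_iInter_of_finite fun i =>
      isOpen_Ioo.preimage (f.1.2.comp (continuous_apply i))
  have key : ∀ (n : ℕ) (q : Fin n → ℚ × ℚ), ∃ t : Set A, t.Countable ∧
      ⋃ f ∈ t, U n q f = ⋃ f, U n q f := fun n q => by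
    have := hX n
    exact eq_open_union_countable (U n q) (hU n q)
  choose t htc ht using key
  refine ⟨⋃ n, ⋃ q : Fin n → ℚ × ℚ, Subtype.val '' t n q, ?_, ?_, ?_⟩
  · intro f hf
    simp only [mem_iUnion, mem_image] at hf
    obtain ⟨n, q, g, _, rfl⟩ := hf
    exact g.2
  · exact countable_iUnion fun n => countable_iUnion fun q => (htc n q).image _
  · intro f hf
    rw [mem_closure_iff_nhds]
    intro W hW
    obtain ⟨W', hW', hW'W⟩ := mem_nhds_subtype _ _ _ |>.1 hW
    rw [nhds_pi, Filter.mem_pi] at hW'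
    obtain ⟨I, hI, s, hs, hsW⟩ := hW'
    -- enumerate the finite set of points
    let m := hI.toFinset.card
    let e := hI.toFinset.equivFin
    let x : Fin m → X := fun i => (e.symm i : X)
    have hq : ∀ i : Fin m, ∃ q : ℚ × ℚ, ((q.1 : ℝ) < (f : X → ℝ) (x i) ∧
        (f : X → ℝ) (x i) < (q.2 : ℝ)) ∧ Ioo (q.1 : ℝ) (q.2 : ℝ) ⊆ s (x i) := by
      intro i
      obtain ⟨v, hv, hxv, hvs⟩ := (Real.isTopologicalBasis_Ioo_rat).mem_nhds_iff.1 (hs (x i))
      simp only [mem_iUnion, mem_singleton_iff] at hv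
      obtain ⟨a, b, hab, rfl⟩ := hv
      exact ⟨(a, b), hxv, hvs⟩
    choose q hq1 hq2 using hq
    have hx : x ∈ ⋃ g, U m q g := mem_iUnion.2 ⟨⟨f, hf⟩, fun i => hq1 i⟩
    rw [← ht m q] at hx
    simp only [mem_iUnion] at hx
    obtain ⟨g, hg, hxg⟩ := hx
    refine ⟨g.1, hW'W ?_, mem_iUnion.2 ⟨m, mem_iUnion.2 ⟨q, ⟨g, hg, rfl⟩⟩⟩⟩
    refine hsW ?_
    intro z hz
    have h1 := hxg (e ⟨z, hI.mem_toFinset.2 hz⟩)
    have h2 : x (e ⟨z, hI.mem_toFinset.2 hz⟩) = z := by simp [x]
    have h3 := hq2 (e ⟨z, hI.mem_toFinset.2 hz⟩)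
    rw [h2] at h1 h3
    exact h3 h1

end Separable

section Tychonoff

variable {Y : Type v} [TopologicalSpace Y]

/-- Separation of a point from the complement of an open set. -/
lemma exists_sep [CompletelyRegularSpace Y] {y : Y} {O : Set Y} (hO : IsOpen O) (hy : y ∈ O) :
    ∃ g : Y → ℝ, Continuous g ∧ (∀ z, 0 ≤ g z ∧ g z ≤ 1) ∧ g y = 1 ∧ ∀ z ∉ O, g z = 0 := by
  obtain ⟨f, hf, h0, h1⟩ := CompletelyRegularSpace.completely_regular_isOpen y O hO hy
  refine ⟨fun z => 1 - (f z : ℝ), ?_, ?_, ?_, ?_⟩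
  · exact continuous_const.sub (continuous_subtype_val.comp hf)
  · intro z
    have := (f z).2
    constructor <;> linarith [this.1, this.2]
  · simp [h0]
  · intro z hz
    have : f z = 1 := h1 hz
    simp [this]

/-- Lindelöf Tychonoff spaces are realcompact. -/
lemma realcompact_of_lindelof [CompletelyRegularSpace Y] [LindelofSpace Y] :
    IsRealcompact Y := by
  intro U hU
  by_contra hno
  push Not at hno
  have hA : ∀ y : Y, ∃ g : Y → ℝ, Continuous g ∧ (∀ z, 0 ≤ g z ∧ g z ≤ 1) ∧ g y = 1 ∧
      ∀ᶠ z in (U : Filter Y), g z = 0 := by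
    intro y
    have h1 := hno y
    rw [(nhds_basis_opens y).ge_iff] at h1
    push Not at h1
    obtain ⟨O, ⟨hyO, hO⟩, hOU⟩ := h1
    obtain ⟨g, hg, hg01, hgy, hgO⟩ := exists_sep hO hyO
    refine ⟨g, hg, hg01, hgy, ?_⟩
    have : Oᶜ ∈ U := Ultrafilter.compl_mem_iff_notMem.mpr hOU
    exact mem_of_superset this hgO
  choose g hg hg01 hgy hgU using hA
  obtain ⟨t, htc, ht⟩ := (isLindelof_univ (X := Y)).elim_countable_subcover
    (fun y => {z | 0 < g y z}) (fun y => isOpen_lt continuous_const (hg y))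
    (fun y _ => mem_iUnion.2 ⟨y, by simp [hgy y]⟩)
  have hne : t.Nonempty := by
    obtain ⟨y⟩ := (U : Filter Y).nonempty_of_neBot
    have := ht (mem_univ y)
    simp only [mem_iUnion] at this
    obtain ⟨z, hz, _⟩ := this
    exact ⟨z, hz⟩
  obtain ⟨d, hd⟩ := htc.exists_eq_range hne
  set h : Y → ℝ := fun y => ∑' n : ℕ, (1 / 2 : ℝ) ^ n * g (d n) y with hh
  have hgeo : Summable (fun n : ℕ => (1 / 2 : ℝ) ^ n) := summable_geometric_two
  have hbd : ∀ n y, ‖(1 / 2 : ℝ) ^ n * g (d n) y‖ ≤ (1 / 2 : ℝ) ^ n := by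
    intro n y
    have h1 := hg01 (d n) y
    rw [norm_mul, Real.norm_of_nonneg (by positivity), Real.norm_of_nonneg h1.1]
    exact mul_le_of_le_one_right (by positivity) h1.2
  have hcont : Continuous h := by
    apply continuous_tsum (fun n => continuous_const.mul (hg (d n))) hgeo hbd
  have hpos : ∀ y, 0 < h y := by
    intro y
    have hy := ht (mem_univ y)
    simp only [mem_iUnion] at hy
    obtain ⟨z, hz, hzy⟩ := hy
    rw [hd] at hz
    obtain ⟨n, rfl⟩ := hz
    have hsum : Summable (fun n : ℕ => (1 / 2 : ℝ) ^ n * g (d n) y) :=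
      Summable.of_norm_bounded hgeo (fun n => hbd n y)
    apply hsum.tsum_pos (fun i => mul_nonneg (by positivity) (hg01 (d i) y).1) n
    exact mul_pos (by positivity) hzy
  have hlim : Tendsto h U (𝓝 0) := by
    have := tendsto_tsum_of_dominated_convergence (𝓕 := (U : Filter Y))
      (f := fun y n => (1 / 2 : ℝ) ^ n * g (d n) y) (g := fun _ => (0 : ℝ)) hgeo
      (fun n => ?_) (Eventually.of_forall fun y n => hbd n y)
    · rwa [tsum_zero] at this
    · apply Tendsto.congr' _ tendsto_const_nhds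
      filter_upwards [hgU (d n)] with y hy
      rw [hy, mul_zero]
  obtain ⟨c, hc⟩ := hU (fun y => (h y)⁻¹) (hcont.inv₀ fun y => (hpos y).ne')
  have h1 : Tendsto (fun y => h y * (h y)⁻¹) U (𝓝 (0 * c)) := hlim.mul hc
  have h2 : Tendsto (fun y => h y * (h y)⁻¹) U (𝓝 1) := by
    apply Tendsto.congr _ tendsto_const_nhds
    intro y
    exact (mul_inv_cancel₀ (hpos y).ne').symm
  have := tendsto_nhds_unique h1 h2
  simp at this

end Tychonoff

section Main

variable {X : Type u} {Y : Type v} [TopologicalSpace X] [TopologicalSpace Y]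

/-- If the finite powers of `X` are hereditarily Lindelöf and `C_p(X)` maps continuously onto
`C_p(Y)`, then `Y` is Lindelöf. -/
lemma lindelof_of_surjective [CompletelyRegularSpace Y]
    (hX : ∀ n : ℕ, HereditarilyLindelofSpace (Fin n → X)) (L : Cp X → Cp Y) (hL : Continuous L)
    (hsurj : Function.Surjective L) : LindelofSpace Y := by
  refine ⟨isLindelof_of_countable_subcover fun {ι} O hO hcov => ?_⟩
  have h1 : ∀ y : Y, ∃ i : ι, ∃ f : Cp X, (L f : Y → ℝ) y = 1 ∧
      ∀ z ∉ O i, (L f : Y → ℝ) z = 0 := by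
    intro y
    obtain ⟨i, hi⟩ := mem_iUnion.1 (hcov (mem_univ y))
    obtain ⟨g, hg, _, hgy, hgO⟩ := exists_sep (hO i) hi
    obtain ⟨f, hf⟩ := hsurj ⟨g, hg⟩
    exact ⟨i, f, by rw [hf]; exact hgy, by rw [hf]; exact hgO⟩
  choose i f hf1 hf0 using h1
  obtain ⟨D, hDA, hDc, hD⟩ := exists_countable_dense hX (range f)
  have h2 : ∀ d : D, ∃ y, f y = d := fun d => hDA d.2
  choose y hy using h2
  have : Countable D := hDc.to_subtype
  refine ⟨range fun d : D => i (y d), countable_range _, ?_⟩
  intro z _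
  have ho : IsOpen {g : Cp X | 0 < (L g : Y → ℝ) z} :=
    isOpen_Ioi.preimage ((continuous_ev z).comp hL)
  obtain ⟨d, hd1, hd2⟩ := mem_closure_iff.mp (hD ⟨z, rfl⟩) _ ho
    (by change 0 < (L (f z) : Y → ℝ) z; rw [hf1]; exact one_pos)
  have hd3 : z ∈ O (i (y ⟨d, hd2⟩)) := by
    by_contra hno
    have h3 := hf0 (y ⟨d, hd2⟩) z hno
    rw [hy ⟨d, hd2⟩] at h3
    have hd1' : 0 < (L d : Y → ℝ) z := hd1
    rw [h3] at hd1'
    exact lt_irrefl _ hd1'
  exact mem_iUnion₂.2 ⟨i (y ⟨d, hd2⟩), ⟨⟨d, hd2⟩, rfl⟩, hd3⟩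

/-- Evaluation of a finite linear combination of point evaluations. -/
def comb (n : ℕ) (w : (Fin n → ℝ) × (Fin n → X)) (f : Cp X) : ℝ :=
  ∑ i, w.1 i * (f : X → ℝ) (w.2 i)

lemma continuous_comb (n : ℕ) (f : Cp X) :
    Continuous fun w : (Fin n → ℝ) × (Fin n → X) => comb n w f := by
  unfold comb
  refine continuous_finsetSum _ fun i _ => ?_
  refine ((continuous_apply i).comp continuous_fst).mul ?_
  exact f.2.comp ((continuous_apply i).comp continuous_snd)

/-- The parameters representing the functional of a point of `Y`. -/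
def good (L : Cp X →ₗ[ℝ] Cp Y) (n : ℕ) : Set ((Fin n → ℝ) × (Fin n → X)) :=
  {w | ∃ y : Y, ∀ f : Cp X, (L f : Y → ℝ) y = comb n w f}

lemma good_closed (hY : IsRealcompact Y) (L : Cp X →ₗ[ℝ] Cp Y)
    (hsurj : Function.Surjective L) (n : ℕ) : IsClosed (good L n) := by
  rw [isClosed_iff_ultrafilter]
  intro w u hu hmem
  obtain ⟨w₀, y₀, _⟩ := u.nonempty_of_mem hmem
  classical
  let F : (Fin n → ℝ) × (Fin n → X) → Y := fun w =>
    if h : w ∈ good L n then h.choose else y₀
  have hF : ∀ w ∈ good L n, ∀ f : Cp X, (L f : Y → ℝ) (F w) = comb n w f := by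
    intro w hw
    simp only [F, dif_pos hw]
    exact hw.choose_spec
  have hlim : ∀ f : Cp X, Tendsto (fun y => (L f : Y → ℝ) y) (u.map F) (𝓝 (comb n w f)) := by
    intro f
    rw [Ultrafilter.coe_map, tendsto_map'_iff]
    have h1 : Tendsto (fun w => comb n w f) u (𝓝 (comb n w f)) :=
      ((continuous_comb n f).tendsto w).mono_left hu
    apply h1.congr'
    filter_upwards [hmem] with w' hw'
    exact (hF w' hw' f).symm
  obtain ⟨y, hy⟩ := hY (u.map F) (by
    intro g hg
    obtain ⟨f, hf⟩ := hsurj ⟨g, hg⟩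
    refine ⟨comb n w f, ?_⟩
    have := hlim f
    rwa [hf] at this)
  refine ⟨y, fun f => ?_⟩
  have h2 : Tendsto (fun y => (L f : Y → ℝ) y) (u.map F) (𝓝 ((L f : Y → ℝ) y)) :=
    ((L f).2.tendsto y).mono_left hy
  exact tendsto_nhds_unique h2 (hlim f)

/-- **Structure theorem.** If `C_p(X)` admits a continuous linear surjection onto `C_p(Y)` and `Y`
is realcompact, then `Y` is a countable union of continuous images of closed subspaces of the
spaces `ℝ^n × X^n`. -/
theorem structure_of_realcompact [T35Space Y] (hY : IsRealcompact Y)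
    (L : Cp X →ₗ[ℝ] Cp Y) (hL : Continuous L) (hsurj : Function.Surjective L) :
    ∃ (G : ∀ n : ℕ, Set ((Fin n → ℝ) × (Fin n → X))) (F : ∀ n, G n → Y),
      (∀ n, IsClosed (G n)) ∧ (∀ n, Continuous (F n)) ∧ ∀ y, ∃ n, ∃ w : G n, F n w = y := by
  refine ⟨good L, fun n w => w.2.choose, good_closed hY L hsurj, ?_, ?_⟩
  · intro n
    have hF : ∀ (w : good L n) (f : Cp X), (L f : Y → ℝ) (w.2.choose) = comb n w.1 f :=
      fun w => w.2.choose_spec
    rw [continuous_iff_continuousAt]
    intro w
    rw [ContinuousAt, (nhds_basis_opens _).tendsto_right_iff]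
    rintro O ⟨hwO, hO⟩
    obtain ⟨g, hg, _, hg1, hg0⟩ := exists_sep hO hwO
    obtain ⟨f, hf⟩ := hsurj ⟨g, hg⟩
    have hfg : (L f : Y → ℝ) = g := by rw [hf]
    have h1 : comb n w.1 f = 1 := by
      rw [← hF w f, hfg, hg1]
    have h2 : ∀ᶠ w' : good L n in 𝓝 w, 0 < comb n w'.1 f := by
      apply (((continuous_comb n f).comp continuous_subtype_val).tendsto w).eventually
      exact lt_mem_nhds (by simp only [Function.comp]; rw [h1]; exact one_pos)
    filter_upwards [h2] with w' h3
    by_contra h5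
    rw [← hF w' f, hfg, hg0 _ h5] at h3
    exact lt_irrefl _ h3
  · intro y
    obtain ⟨n, c, x, hφ⟩ := functional_eq ((ev y).comp L) ((continuous_ev y).comp hL)
    have hw : ∀ f : Cp X, (L f : Y → ℝ) y = comb n (c, x) f := by
      intro f
      have := hφ f
      simp only [LinearMap.comp_apply, ev_apply] at this
      rw [this]
      simp [comb]
    have hmem : (c, x) ∈ good L n := ⟨y, hw⟩
    refine ⟨n, ⟨(c, x), hmem⟩, ?_⟩
    by_contra hne
    have hF : ∀ f : Cp X, (L f : Y → ℝ) (hmem.choose) = comb n (c, x) f := hmem.choose_spec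
    obtain ⟨g, hg, _, hg1, hg0⟩ := exists_sep (isOpen_compl_singleton (x := hmem.choose))
      (show y ∈ ({hmem.choose}ᶜ : Set Y) from fun e => hne e.symm)
    obtain ⟨f, hf⟩ := hsurj ⟨g, hg⟩
    have hfg : (L f : Y → ℝ) = g := by rw [hf]
    have h1 := hw f
    rw [← hF f, hfg, hg1, hg0 _ (fun h => h rfl)] at h1
    exact one_ne_zero h1

/-- A continuous image of a hereditarily Lindelöf space is hereditarily Lindelöf. -/
lemma hereditarilyLindelof_of_surjective {Z : Type u} {W : Type v} [TopologicalSpace Z]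
    [TopologicalSpace W] [HereditarilyLindelofSpace Z] {f : Z → W} (hf : Continuous f)
    (hs : Function.Surjective f) : HereditarilyLindelofSpace W := by
  refine ⟨fun s _ => ?_⟩
  have h1 := (HereditarilyLindelofSpace.isLindelof (f ⁻¹' s)).image hf
  rwa [image_preimage_eq s hs] at h1

/-- The finite powers of an analytic space are hereditarily Lindelöf. -/
lemma hereditarilyLindelof_of_analytic (hX : IsAnalytic X) (n : ℕ) :
    HereditarilyLindelofSpace (Fin n → X) := by
  obtain ⟨p, hp, hs⟩ := hX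
  refine hereditarilyLindelof_of_surjective (Z := Fin n → (ℕ → ℕ)) (f := fun w i => p (w i))
    (continuous_pi fun i => hp.comp (continuous_apply i)) ?_
  intro x
  choose w hw using fun i => hs (x i)
  exact ⟨w, funext hw⟩

/-- Properties of topological spaces which are inherited by closed subspaces, continuous images,
the products `ℝ^n × Z^n` and countable unions. -/
structure IsSigmaClass (P : ∀ (Z : Type u) [TopologicalSpace Z], Prop) : Prop where
  /-- closed subspaces -/
  closed : ∀ (Z : Type u) [TopologicalSpace Z], P Z → ∀ s : Set Z, IsClosed s → P s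
  /-- continuous images -/
  image : ∀ (Z W : Type u) [TopologicalSpace Z] [TopologicalSpace W] (f : Z → W),
    Continuous f → Function.Surjective f → P Z → P W
  /-- products with Euclidean spaces of finite powers -/
  power : ∀ (Z : Type u) [TopologicalSpace Z] (n : ℕ), P Z → P ((Fin n → ℝ) × (Fin n → Z))
  /-- countable unions -/
  union : ∀ (Z : Type u) [TopologicalSpace Z] (s : ℕ → Set Z), (⋃ n, s n) = univ →
    (∀ n, P (s n)) → P Z

/-- Transfer of a property along a continuous linear surjection `C_p(X) → C_p(Y)`. -/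
theorem transfer {X Y : Type u} [TopologicalSpace X] [TopologicalSpace Y] [T35Space Y]
    {P : ∀ (Z : Type u) [TopologicalSpace Z], Prop} (hP : IsSigmaClass P)
    (hY : IsRealcompact Y) (L : Cp X →ₗ[ℝ] Cp Y) (hL : Continuous L)
    (hsurj : Function.Surjective L) (hX : P X) : P Y := by
  obtain ⟨G, F, hG, hF, hcov⟩ := structure_of_realcompact hY L hL hsurj
  refine hP.union Y (fun n => range (F n)) ?_ fun n => ?_
  · rw [eq_univ_iff_forall]
    intro y
    obtain ⟨n, w, hw⟩ := hcov y
    exact mem_iUnion.2 ⟨n, w, hw⟩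
  · exact hP.image (G n) (range (F n)) (fun w => ⟨F n w, w, rfl⟩)
      ((hF n).subtype_mk _) (fun ⟨_, w, hw⟩ => ⟨w, Subtype.ext hw⟩)
      (hP.closed _ (hP.power X n hX) (G n) (hG n))

/-- Analyticity is transferred. -/
theorem analytic_of_surjection [T35Space Y] [Nonempty Y] (hX : IsAnalytic X)
    (L : Cp X →ₗ[ℝ] Cp Y) (hL : Continuous L) (hsurj : Function.Surjective L) :
    IsAnalytic Y := by
  have : LindelofSpace Y :=
    lindelof_of_surjective (hereditarilyLindelof_of_analytic hX) L hL hsurj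
  obtain ⟨G, F, hG, hF, hcov⟩ := structure_of_realcompact realcompact_of_lindelof L hL hsurj
  obtain ⟨p, hp, hs⟩ := hX
  obtain ⟨y₀⟩ := ‹Nonempty Y›
  -- closed subsets of the Polish spaces `ℝ^n × (ω^ω)^n`
  let q : ∀ n : ℕ, (Fin n → ℝ) × (Fin n → (ℕ → ℕ)) → (Fin n → ℝ) × (Fin n → X) := fun n w =>
    (w.1, fun i => p (w.2 i))
  have hq : ∀ n, Continuous (q n) := fun n =>
    continuous_fst.prodMk (continuous_pi fun i =>
      hp.comp ((continuous_apply i).comp continuous_snd))
  have hana : MeasureTheory.AnalyticSet (univ : Set Y) := by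
    have h1 : (⋃ n, (fun w : q n ⁻¹' G n => F n ⟨q n w.1, w.2⟩) '' univ) = (univ : Set Y) := by
      rw [eq_univ_iff_forall]
      intro y
      obtain ⟨n, w, hw⟩ := hcov y
      choose z hz using fun i => hs (w.1.2 i)
      have h2 : q n (w.1.1, z) = w.1 := Prod.ext rfl (funext hz)
      refine mem_iUnion.2 ⟨n, ⟨(w.1.1, z), by rw [mem_preimage, h2]; exact w.2⟩, mem_univ _, ?_⟩
      rw [← hw]
      exact congrArg (F n) (Subtype.ext h2)
    rw [← h1]
    apply MeasureTheory.AnalyticSet.iUnion
    intro n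
    have : PolishSpace (q n ⁻¹' G n) := ((hG n).preimage (hq n)).polishSpace
    have h3 : MeasureTheory.AnalyticSet (univ : Set (q n ⁻¹' G n)) :=
      isClosed_univ.analyticSet
    exact h3.image_of_continuous ((hF n).comp (((hq n).comp continuous_subtype_val).subtype_mk _))
  rw [MeasureTheory.AnalyticSet] at hana
  rcases hana with h | ⟨f, hf, hr⟩
  · exact absurd (h ▸ mem_univ y₀) (notMem_empty _)
  · exact ⟨f, hf, range_eq_univ.mp hr⟩

end Main

end Pool.Agent.Y302.LC
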